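import Mathlib

/-!
# Project MK: metric lower bound for the van der Corput - Kronecker sequence (MP_4e48d5_nt)

Definitions and statements of the lemma jobs, with proofs in the doc comments.
-/

set_option autoImplicit false

namespace Pool.Agent.Q271.MK

open Filter MeasureTheory

/-- The van der Corput sequence in base 2: `∑ a_j 2 ^ (-j-1)` for `n = ∑ a_j 2 ^ j` with the digits
`a_j = ⌊n / 2 ^ j⌋ mod 2`. -/
noncomputable def vdc (n : ℕ) : ℝ := ∑' j : ℕ, ((n / 2 ^ j % 2 : ℕ) : ℝ) / 2 ^ (j + 1)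

open Classical in
/-- The discrepancy of the first `N` points of the sequence `(vdc n, {n α})`: the supremum over the
boxes `[a₁, b₁) × [a₂, b₂)` in the unit square. -/
noncomputable def D (α : ℝ) (N : ℕ) : ℝ :=
  sSup {y : ℝ | ∃ a₁ b₁ a₂ b₂ : ℝ, 0 ≤ a₁ ∧ a₁ ≤ b₁ ∧ b₁ ≤ 1 ∧ 0 ≤ a₂ ∧ a₂ ≤ b₂ ∧ b₂ ≤ 1 ∧
    y = |(((Finset.range N).filter fun n =>
      vdc n ∈ Set.Ico a₁ b₁ ∧ Int.fract (n * α) ∈ Set.Ico a₂ b₂).card : ℝ) / N -
        (b₁ - a₁) * (b₂ - a₂)|}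

/-- The odd numbers `h` with `4 ^ j < h ≤ 4 ^ (j + 1)`. -/
def odds (j : ℕ) : Finset ℕ := (Finset.Ioc (4 ^ j) (4 ^ (j + 1))).filter fun h => h % 2 = 1

/-- JOB MK1a (block estimates).

PROOF. Put `y = 4 ^ j` (even, as `1 ≤ j`). First part: there are `3 y / 2` odd numbers in `(y, 4 y]` (at most
that many is needed), and each term is `≤ 1 / y`. Second part: `φ h / h ^ 2 ≥ (1 / (4 y)) * (φ h / h)` for
`h ≤ 4 y`, so it is enough that `∑ h ∈ odds j, φ h / h ≥ y / 2`. With `x = 4 y`: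
`x ^ 2 / 4 = ∑ (n odd, n ≤ x) n = ∑ (n odd, n ≤ x) ∑ (d ∣ n) φ d = ∑ (d odd, d ≤ x) φ d * #{m odd, m ≤ x / d}`
`≤ ∑ (d odd, d ≤ x) φ d * (x / d + 1) / 2 ≤ x * ∑ (d odd, d ≤ x) φ d / d` (as `1 ≤ x / d`), so
`∑ (d odd, d ≤ x) φ d / d ≥ x / 4 = y`, and `∑ (d odd, d ≤ y) φ d / d ≤ y / 2` (number of terms, each `≤ 1`).
(`Nat.sum_totient`; see also `sum_phi` in `Pool/Agent/Helper74/KV/K6.lean`.) -/
def S_MK1a : Prop :=
  ∀ j : ℕ, 1 ≤ j → (∑ h ∈ odds j, (1 : ℝ) / h) ≤ 3 / 2 ∧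
    1 / 8 ≤ ∑ h ∈ odds j, (Nat.totient h : ℝ) / (h : ℝ) ^ 2

/-- JOB MK1b (the theorem of Duffin and Schaeffer, 1941, with Gallagher's zero-one law).

PROOF. Library: `Pool/Agent/Helper74/KV/K1.lean` ... `K12.lean` on main (starting files; copy them to
your tree), in particular `pt` (K1), `co`, `lemG` (K3: second moment), `WW_pos` (K4: a limsup set of
positive measure), `zero_one` (K4, Gallagher's theorem
`AddCircle.addWellApproximable_ae_empty_or_univ`), `pt_eq_iff` (K6), `ball_approx` (K7), the end of the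
proof of `case_rat` (K12), and the transfer from the circle to the real line (the file
`Pool/Agent/Results/MP_2688e8_nt/KhintchineOnVerticalLines.lean`).
Let `δ q = 2 * ρ q / q` (it tends to zero, `≤ 1 / q`) and `E = addWellApproximable UnitAddCircle δ`
(`mem_addWellApproximable_iff`). If `x = (α : UnitAddCircle)` is in `E`, then for infinitely many `q > 0`
there is `y` with `addOrderOf y = q` and `dist x y < δ q`; then `ρ q > 0` and `q • y = 0`, so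
`‖q • x‖ < q * δ q = 2 * ρ q`, which gives `p : ℤ` with `|q α - p| < 2 * ρ q`. By Gallagher's theorem it is
enough that `volume E ≠ 0`; then `E` has full measure in the circle and the set of the real `α` has full
measure. Positive measure: as in `WW_pos` it is enough that for every `K` the (open, decreasing in `K`)
union `⋃ (q ≥ K), ⋃ (s < q coprime to q), ball (pt q s) (δ q)` has measure at least a constant `> 0`
(`E` is the intersection over `K` of these unions, as `addOrderOf (pt q s) = q` for `s` coprime to `q > 0`,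
`AddCircle.addOrderOf_div_of_gcd_eq_one`). For `K ≥ 1` take `T` from the hypothesis and the subset
`T' = T.filter (0 < ρ q)` (the same sums); apply `lemG` with `ι = ℕ`, `q i = i`,
`N q = (range q).filter (Nat.Coprime q)`, `c1 = c`, `c2 = 1`: `(N q).card = φ q`, and by `pt_eq_iff` two
different `q, q'` have no common point of this form (both are the reduced form of the same fraction), so the
double sum in `h2` is `∑ q ∈ T', ρ q / q * φ q ≤ ∑ q ∈ T', ρ q` (for `q = q'` the coincidences are the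
`φ q` diagonal pairs). `closedBall (pt q s) (ρ q / q) ⊆ ball (pt q s) (δ q)` as `ρ q > 0`. -/
def S_MK1b : Prop :=
  ∀ (ρ : ℕ → ℝ) (c : ℝ), 0 < c → (∀ q, 0 ≤ ρ q) → (∀ q, ρ q ≤ 1 / 2) →
    (∀ K : ℕ, ∃ T : Finset ℕ, (∀ q ∈ T, K ≤ q) ∧ 1 ≤ ∑ q ∈ T, ρ q ∧
      c * ∑ q ∈ T, ρ q ≤ ∑ q ∈ T, ρ q * ((Nat.totient q : ℝ) / q)) →
    ∀ᵐ α : ℝ, ∃ᶠ q : ℕ in atTop, 0 < ρ q ∧ ∃ p : ℤ, |(q : ℝ) * α - p| < 2 * ρ q

/-- The approximation theorem (divergence part of a metric theorem on the mixed Littlewood problem for the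
prime 2). -/
def S_MK1 : Prop :=
  ∀ A : ℕ → ℝ, (∀ n, 1 ≤ A n) → Monotone A → ¬ Summable (fun n : ℕ => (n : ℝ) / A n) →
    ∀ᵐ α : ℝ, ∃ᶠ q : ℕ in atTop, ∃ k h : ℕ, q = 2 ^ k * h ∧ 0 < h ∧
      ∃ p : ℤ, |(q : ℝ) * α - p| * (h * A (Nat.log 2 q)) < 1

/-- JOB MK1c (the approximation theorem from MK1a and MK1b).

PROOF. The pairs `(k, h)` with `h` odd correspond to the `q = 2 ^ k * h ≥ 1`
(`Nat.exists_eq_two_pow_mul_odd`, `padicValNat 2 q`). For `k, j ≥ 1` and `h ∈ odds j`, `q = 2 ^ k * h`, put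
`L = k + 2 * j` and `ρ q = 1 / (4 * A (L + 3) * h)`; `ρ q = 0` for the other `q`. (`j` is determined by `h`.)
Then `2 ^ L ≤ q < 2 ^ (L + 3)`, so `Nat.log 2 q ≤ L + 3` and `A (Nat.log 2 q) ≤ A (L + 3)`; so
`|q α - p| < 2 * ρ q` gives `|q α - p| * (h * A (Nat.log 2 q)) ≤ 1 / 2 < 1`. Apply MK1b with `c = 1 / 24`.
For `K` given (`K ≥ 1`) take `T` = the `2 ^ k * h` with `K ≤ k ≤ M`, `1 ≤ j ≤ M`, `h ∈ odds j` (so
`q ≥ 2 ^ k > K`). With `η L = 1 / (4 * A (L + 3))` the block `(k, j)` has `∑ ρ = η L * ∑ 1 / h ≤ η L * 3 / 2`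
and, as `φ (2 ^ k * h) / (2 ^ k * h) = φ h / (2 h)` for `k ≥ 1`, `∑ ρ q * φ q / q = η L / 2 * ∑ φ h / h ^ 2
≥ η L / 16`: so the inequality with `c = 1 / 24` holds for every block. And `∑ 1 / h ≥ ∑ φ h / h ^ 2 ≥ 1 / 8`,
so `∑ q ∈ T, ρ q ≥ (1 / 8) * ∑ (K ≤ k ≤ M), ∑ (1 ≤ j ≤ M), η (k + 2 j)`
`≥ (1 / 8) * ∑ (L ≤ M), η L * #{j : 1 ≤ j, K + 2 j ≤ L}`, the number of `j` is at least `L / 8` for
`L ≥ 2 K + 2`, and `∑ L, L * η L = ∑ L / (4 A (L + 3))` diverges because `∑ n / A n` does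
(`n ≤ 4 (n - 3)` for `n ≥ 4`); so for large `M` the sum is `≥ 1`. -/
def S_MK1c : Prop := S_MK1a → S_MK1b → S_MK1

/-- JOB MK2 (a very good approximation gives a large discrepancy).

PROOF. Let `N = 2 ^ k * h * a`, `θ = 2 ^ k * α`, `ε = h * θ - p`, `|ε| * (2 * h * a) ≤ 1`. For
`0 ≤ m < h * a`: `m * θ = m * p / h + m * ε / h`, and `|m * ε / h| < 1 / (2 * h)` (if `ε ≠ 0`:
`m < h * a`). So `{m θ}` is a multiple of `1 / h` plus an element of `[0, 1 / (2 h))` if `ε ≥ 0`, and an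
integer multiple of `1 / h` minus an element of `[0, 1 / (2 h))` if `ε < 0`. In the first case no
`{m θ}` is in `I = [1 / (2 h), 1 / h)`; in the second case no `{m θ}` is in `I = [1 / (8 h), 1 / (2 h))`.
`I ⊆ [0, 1)` has length at least `3 / (8 h)`. For `n < N` we have `vdc n < 2 ^ (-k)` iff `2 ^ k ∣ n`
(only `→` is needed: if `2 ^ k ∤ n` then some digit `n / 2 ^ j % 2` with `j < k` is `1`, so
`vdc n ≥ 2 ^ (-j-1) ≥ 2 ^ (-k)`; the series is summable, its terms are `≤ 2 ^ (-j-1)`), and then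
`n = 2 ^ k * m`, `m < h * a`, `n α = m θ`. So the box `[0, 2 ^ (-k)) × I` contains no point with
`n < N`, and `D α N ≥ 2 ^ (-k) * 3 / (8 h)` (`le_csSup`, bounded above by `1`, since the quotient and
the area are in `[0, 1]`), so `N * D α N ≥ 3 a / 8`. -/
def S_MK2 : Prop :=
  ∀ (α : ℝ) (k h a : ℕ) (p : ℤ), 0 < h → 0 < a →
    |((2 ^ k * h : ℕ) : ℝ) * α - p| * (2 * h * a) ≤ 1 →
    3 / 8 * (a : ℝ) ≤ ((2 ^ k * h * a : ℕ) : ℝ) * D α (2 ^ k * h * a)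

/-- JOB MK3a (a divergent series).

PROOF. Compare with `∑ 1 / (n log n) = ∞`: for `n ≥ 2` the denominator is
`≤ (1 + 16 * C') * n ^ 2 * Real.log n * 4`, say (`1 ≤ 2 n ^ 2 log n`, `n + 1 ≤ 2 n`, `n + 2 ≤ n ^ 2`, so
`log (n + 2) ≤ 2 log n`). The divergence of `∑ 1 / (n log n)`: Cauchy condensation
(`summable_condensed_iff_of_nonneg`, the condensed series is `∑ 1 / (k log 2)`), or the telescoping sum of
`log log (n + 1) - log log n ≤ 1 / (n log n)`. -/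
def S_MK3a : Prop :=
  ∀ C : ℝ, 0 ≤ C →
    ¬ Summable (fun n : ℕ => (n : ℝ) / (1 + C * ((n : ℝ) + 1) ^ 2 * Real.log ((n : ℝ) + 2)))

/-- JOB MK3 (the theorem).

PROOF. By countability (`C` replaced by natural numbers `≥ 1`, `ae_all_iff`; for `N ≥ 3` the factor
`(log N) ^ 2 * log (log N) / N` is nonnegative) fix `C ≥ 1`. Apply MK1 to
`A n = 1 + C' * (n + 1) ^ 2 * Real.log (n + 2)` with `C' = 64 * C` (monotone, `≥ 1`; divergence is MK3a).
For `q = 2 ^ k * h` as in MK1 with `L = Nat.log 2 q` put `a = ⌊A L / 2⌋₊`; `A L ≥ 2` for `L ≥ 1`, so `a ≥ 1`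
and `a ≥ A L / 4`, and `2 * h * a ≤ h * A L`, so MK2 applies to `N = 2 ^ k * h * a = q * a ≥ q`:
`N * D α N ≥ 3 a / 8 ≥ 3 A L / 32`. As `q < 2 ^ (L + 1)` and `a ≤ A L`,
`log N ≤ (L + 1) log 2 + log (A L) ≤ 2 (L + 1)` for large `L`, so
`C * (log N) ^ 2 * log (log N) ≤ 4 C (L + 1) ^ 2 * log (2 (L + 1)) ≤ 8 C (L + 1) ^ 2 * log (L + 2)`
(`2 (L + 1) ≤ (L + 2) ^ 2`), while `3 A L / 32 ≥ (3 / 32) * 64 C (L + 1) ^ 2 log (L + 2) = 6 C ...`; so use a
larger constant, e.g. `C' = 128 * C`. `N → ∞` along the `q` (`N ≥ q`). -/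
def S_MK3 : Prop :=
  S_MK1 → S_MK2 → S_MK3a → ∀ᵐ α : ℝ, ∀ C : ℝ, ∃ᶠ N : ℕ in atTop,
    C * (Real.log N) ^ 2 * Real.log (Real.log N) / N ≤ D α N

end Pool.Agent.Q271.MK
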